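import Pool.Agent.K7.H29.BC.Subtree

/-!
# Groups acting on trees with edge stabilizers of finite Hirsch length

`C` is any class of groups with the closure properties `ClosedE C` which contains the groups `F ⋊ Z` for
all free groups `F` and all automorphisms of `F`. All this is published for the class of the groups which
satisfy the A-theoretic Farrell–Jones Conjecture with coefficients and finite wreath products.

Let `G` act without inversions on finitely many trees (one is enough). Suppose that

* the intersections of vertex stabilizers, one for each tree, are in `C`;
* the edge stabilizers have finite Hirsch length (`FinHirsch`: they have a finite subnormal series whose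
  factors are cyclic groups or torsion groups), and their torsion subgroups are finite; for
  instance the edge stabilizers are virtually polycyclic, or torsion-free virtually solvable
  groups of finite Hirsch length;
* each element `x ≠ 1` of an edge stabilizer is detected by a homomorphism `ρ` from `G` to some group in
  `C`: `ρ x ≠ 1`, and `ρ x` has infinite order if `x` has. Here `ρ` depends on `x`.

Then `G` is in `C`. For instance let `G` be the fundamental group of a graph of groups whose vertex groups
are in `C` and whose edge groups are virtually polycyclic. If each element of infinite order of an
edge group has infinite order in some virtually solvable quotient of `G` (or of a subgroup of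
finite index of `G`), and `G` is torsion-free, then `G` is in `C`.

Outline of the proof. If the kernel `L` in the edge stabilizer `E` of a homomorphism `G → Q`, `Q` in `C`, has
an element of infinite order, one passes to the product with a homomorphism which detects it: then `L` drops to a
normal subgroup `L'` such that `L / L'` has an element of infinite order. The number of such drops is
bounded by the Hirsch length. So finitely many homomorphisms together are injective on `E`. For a finitely generated
`G` there is an invariant subtree with finitely many orbits of edges, so there is one homomorphism
which is injective on all edge stabilizers, and the theorem of helper87 on such actions applies (its kernel acts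
freely on the edges; Bass–Serre and Kurosh decomposition; extensions whose kernel is a free
product). The general case follows by directed unions.
-/

set_option autoImplicit false

namespace Pool.Agent.Results.MP_2a547c_gt.FiniteHirschLengthEdges

open Pool.Agent.Y110.FJ Pool.Agent.K7.H29.BC
open Pool.Agent.Helper270.Tree (TreeAct)

theorem result (C : ∀ (G : Type) [Group G], Prop) (hC : ClosedE C)
    (hF : ∀ (X : Type) (α : MulAut (FreeGroup X)),
      C (FreeGroup X ⋊[zpowersHom (MulAut (FreeGroup X)) α] Multiplicative ℤ))
    (G ι : Type) [Group G] [Finite ι] (V : ι → Type) [∀ i, MulAction G (V i)]
    (Γ : ∀ i, SimpleGraph (V i)) (hT : ∀ i, TreeAct G (Γ i))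
    (hE : ∀ i x y, (Γ i).Adj x y → FinHirsch (edgeStab G x y))
    (hfin : ∀ i x y, (Γ i).Adj x y → ∀ L : Subgroup G, L ≤ edgeStab G x y →
      (∀ g ∈ L, IsOfFinOrder g) → (L : Set G).Finite)
    (hd : ∀ i x y, (Γ i).Adj x y → Detects C (edgeStab G x y))
    (hst : ∀ v : ∀ i, V i, C ↥(⨅ i, MulAction.stabilizer G (v i))) : C G :=
  trees_hirsch' hC hF V Γ hT hE hfin hd hst

end Pool.Agent.Results.MP_2a547c_gt.FiniteHirschLengthEdges
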