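import Pool.Agent.K7.H29.GP.Main

/-!
# Extensions whose kernel is a graph product

`C` is any class of groups with the closure properties `ClosedE C` which contains the groups `F ⋊ Z` for
all free groups `F` and all automorphisms of `F`. All this is published for the class of groups which
satisfy the Farrell–Jones conjecture for A-theory with coefficients and finite wreath products.

Let `N` be a normal subgroup of `G` with `G ⧸ N` in `C`, and let `N` be the graph product of its subgroups
`A v` over a graph `Λ` with an arbitrary set `V` of vertices. Suppose that each `g` in `G` has a power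
`g ^ m`, `m > 0`, which permutes the `N`-conjugacy classes of the `A v`, with finite orbits (for finite `V`:
some power of `g` preserves all the classes). If `A v ⟨g⟩` is in `C` for all `v` and all `g` in `G` that
normalize `A v`, then `G` is in `C`.

The elements of `G` may conjugate the `A v` by different elements of `N` (partial conjugations), so that
the cosets of `N` need not contain elements which permute the `A v`.

Outline of the proof.

* Let `U` be generated by the `A u`, `u ≠ v`, and `L` by those with `u` adjacent to `v`. The group `U` acts on
  the free product of the subgroups `x A_v x⁻¹`, `x ∈ U / L`, and `N` maps to the semidirect product; so the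
  normal closure `M` of `A v` in `N` is the free product of these conjugates.
* If all classes are preserved by `G`, then `M` is normal in `G`, and the group `G / M` is in `C` by
  induction: if an element of `G / M` normalizes the image of `A u`, its action there is induced by an
  element of `G` which normalizes `A u`. Then the theorem on extensions whose kernel is a free product
  applies to `M` and `G`.
* In general consider the groups `N ⟨g⟩`. For a finite set `F` of vertices which is invariant under `g`, the
  kernel `K` of the retraction of `N` to the graph product over `F` is normal in `N ⟨g⟩`, and `N ⟨g⟩ / K` is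
  in `C`. These quotients realize the conjugation by `g` on all finite subsets of `N`, and the realization
  criterion applies.
-/

set_option autoImplicit false

namespace Pool.Agent.Results.MP_2a547c_gt.GraphProductExtensions

open Pool.Agent.Y110.FJ Pool.Agent.K7.H29.GP

theorem result (C : ∀ (G : Type) [Group G], Prop) (hC : ClosedE C)
    (hF : ∀ (X : Type) (α : MulAut (FreeGroup X)),
      C (FreeGroup X ⋊[zpowersHom (MulAut (FreeGroup X)) α] Multiplicative ℤ))
    (G V : Type) [Group G] (N : Subgroup G) [N.Normal] (hQ : C (G ⧸ N))
    (Λ : SimpleGraph V) (A : V → Subgroup G) (hN : IsGraphProd Λ N A)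
    (hperm : ∀ g : G, ∃ m : ℕ, 0 < m ∧ ∀ v,
      (∃ w, ∃ n ∈ N, ∀ x, x ∈ A v ↔ n * (g ^ m * x * (g ^ m)⁻¹) * n⁻¹ ∈ A w) ∧
      (∃ k : ℕ, 0 < k ∧ ∃ n ∈ N, ∀ x,
        x ∈ A v ↔ n * (g ^ (m * k) * x * (g ^ (m * k))⁻¹) * n⁻¹ ∈ A v))
    (hcyc : ∀ (v : V) (g : G), (∀ x, x ∈ A v ↔ g * x * g⁻¹ ∈ A v) →
      C ↥(A v ⊔ Subgroup.zpowers g)) : C G :=
  gp_ext hC hF hN hQ hperm hcyc

end Pool.Agent.Results.MP_2a547c_gt.GraphProductExtensions
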