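import Pool.Agent.K7.H29.GA.Main

/-!
# Graphs of groups whose edge groups are detected by characters of the vertex groups

`C` is any class of groups with the closure properties `ClosedE C` which contains the solvable groups and
the groups `F ⋊ Z` for all free groups `F` and all automorphisms of `F`. All this is published for the class
of the groups which satisfy the A-theoretic Farrell–Jones Conjecture with coefficients and finite
wreath products (for the solvable groups see Kasprowski–Ullmann–Wegner–Winges).

Let `G` be the path group of any graph of groups whose vertex groups `A v` are in `C` (the fundamental groups
of the graph of groups are subgroups of `G`). Then `G` is in `C` in each of the following cases.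

1. Each edge group meets the commutator subgroups of its two vertex groups trivially: it embeds in their
   abelianizations. There is no condition on the graph, which may be infinite, and no hypothesis on the
   group `G` itself.
2. More generally: there are homomorphisms `χ v` from the vertex groups to an abelian group such that the two
   embeddings of each edge group lead to the same kernels, and a homomorphism `ρ` from `G` to a group in
   `C`, such that no `b ≠ 1` in an edge group is in the kernels of both `χ` and `ρ`.

If the vertex groups are abelian then 1. is the theorem of Gandini–Meinert–Rüping; if the `χ v` are trivial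
then 2. is the case of a homomorphism which is injective on the edge groups.

Examples for 1.: amalgamated products of torsion-free hyperbolic, CAT(0) or solvable groups `A`, `B` along any subgroups
which embed in `H₁(A)` and `H₁(B)`, for instance the subgroups generated by an element which has infinite
order in `H₁(A)` and in `H₁(B)`; multiple HNN extensions of free groups, or of right-angled Artin groups, along
any isomorphisms between free abelian subgroups which inject into the abelianization, for instance
between the free abelian subgroups generated by any cliques (tubular groups, their higher rank versions,
groups with Baumslag–Solitar relations `s_i a^p s_i⁻¹ = b^q` for generators `a`, `b` of a free group).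

Outline of the proof.

* If `D` is a power of `ℚ/ℤ` then an isomorphism between subgroups of `D` extends to an automorphism of
  `D × D`: extend it and its inverse to endomorphisms `f`, `g` of `D`, and take
  `(x, y) ↦ (y + f x, x - g (y + f x))`.
* So `G` maps to the abelian-by-free group `(D × D) ⋊ F(E)` such that the kernels of the `χ v` on the edge groups are
  preserved, and `G` maps to the product `P` of this group and the target of `ρ`, injectively on the
  edge groups.
* The theorem of helper87 on HNN extensions with a homomorphism which is injective on the associated subgroup is
  applied to one edge after the other; the stable letters which are not yet used are free generators.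
  The case of infinitely many edges follows by directed colimits.
-/

set_option autoImplicit false

namespace Pool.Agent.Results.MP_2a547c_gt.GraphsOfGroupsCharacters

open Pool.Agent.Y110.FJ Pool.Agent.K7.H29.GA

theorem result (C : ∀ (G : Type) [Group G], Prop) (hC : ClosedE C)
    (hF : ∀ (X : Type) (α : MulAut (FreeGroup X)),
      C (FreeGroup X ⋊[zpowersHom (MulAut (FreeGroup X)) α] Multiplicative ℤ))
    (hS : ∀ (S : Type) [Group S], Group.IsSolvable S → C S)
    (G V E : Type) [Group G] (A : V → Subgroup G) (B : E → Subgroup G) (s r : E → V) (t : E → G)
    (h : IsPathGroup A B s r t) (hA : ∀ v, C (A v)) :
    ((∀ e, ∀ b ∈ B e, b ∈ ⁅A (s e), A (s e)⁆ → b = 1) →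
      (∀ e, ∀ b ∈ B e, t e * b * (t e)⁻¹ ∈ ⁅A (r e), A (r e)⁆ → b = 1) → C G) ∧
    (∀ (Q X : Type) [Group Q] [CommGroup X] (ρ : G →* Q) (χ : ∀ v, A v →* X), C Q →
      (∀ e b (hb : b ∈ B e), χ (s e) ⟨b, h.src e b hb⟩ = 1 ↔
        χ (r e) ⟨t e * b * (t e)⁻¹, h.tgt e b hb⟩ = 1) →
      (∀ e b (hb : b ∈ B e), χ (s e) ⟨b, h.src e b hb⟩ = 1 → ρ b = 1 → b = 1) → C G) :=
  ⟨fun hs hr => ab_edges h hC hF hS hA hs hr,
    fun _ _ _ _ ρ χ hQ h1 h2 => char_edges h hC hF hS hA hQ ρ χ h1 h2⟩

end Pool.Agent.Results.MP_2a547c_gt.GraphsOfGroupsCharacters
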