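import Pool.Agent.K7.H29.EM.Hig

/-!
# Higman's embedding theorem inside the class of Farrell–Jones groups

`C` is any class of groups with the closure properties `ClosedE C` which contains the groups `F ⋊ Z` for
all free groups `F` and all automorphisms of `F`. All this is published for the class of the groups which
satisfy the A-theoretic Farrell–Jones Conjecture with coefficients and finite wreath products. Let `D` be
`C`, or the class of the torsion-free groups in `C`, and let `G` be a countable group in `D`. Then `G`
embeds in a group `H` in `D` with two generators. If `G` is finitely generated and embeds in any finitely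
presented group `Q` (by Higman's theorem: if `G` has a recursive presentation) then `H` can be chosen
finitely presented; nothing is assumed about `Q`.

For instance, by Papasoglu's theorem the finite presentations of hyperbolic groups can be enumerated, so
that the group with two generators which contains their free product has a recursive presentation. So
there is a finitely presented group which satisfies the conjecture and contains all hyperbolic
groups, and the same for all enumerable lists of finitely presented groups which satisfy the conjecture.

The usual proofs of the embedding theorems do not preserve the class `C`, because they use HNN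
extensions which need not be in `C`. Here all HNN extensions (and the amalgams) come with a
homomorphism to a group in `C` which is injective on the associated subgroup, so that the theorem of helper87
on such extensions applies. For the finitely presented `H` this is achieved as follows. Let `π : F → Q`
be a presentation with `F` free of finite rank and let `F₀` be the subgroup generated by words which represent
the generators of `G`. The fibre product `L` of `π` with itself is a finitely generated
subgroup of `F × F`, and `L ∩ (F₀ × 1)` is the kernel of `F₀ → G`. Let `E` be the double of `F × F` along
`L`; it is finitely presented, it folds onto `F × F`, and it contains the double `P` of `F₀ × 1` along the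
kernel. `P` has a homomorphism `θ` to `G` which is trivial on the second copy. The HNN extension of
`E × G` with `t (p, 1) t⁻¹ = (p, θ p)` for `p` in `P` is finitely presented (this is Higman's rope
trick), and it maps to `E`.
-/

set_option autoImplicit false

namespace Pool.Agent.Results.MP_2a547c_gt.HigmanEmbedding

open Pool.Agent.Y110.FJ Pool.Agent.K7.H29.EM

/-- the embedding theorems for the group `G` and the class `D` -/
def Embeds (D : ∀ (G : Type) [Group G], Prop) (G : Type) [Group G] : Prop :=
  (∃ (H : Type) (_ : Group H) (x y : H) (f : G →* H), D H ∧ Subgroup.closure {x, y} = ⊤ ∧
    Function.Injective f) ∧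
  (Group.FG G → (∃ (Q : Type) (_ : Group Q) (ι : G →* Q), Group.IsFinitelyPresented Q ∧
      Function.Injective ι) →
    ∃ (H : Type) (_ : Group H) (x y : H) (f : G →* H), D H ∧ Subgroup.closure {x, y} = ⊤ ∧
      Function.Injective f ∧ Group.IsFinitelyPresented H)

theorem result (C : ∀ (G : Type) [Group G], Prop) (hC : ClosedE C)
    (hF : ∀ (X : Type) (α : MulAut (FreeGroup X)),
      C (FreeGroup X ⋊[zpowersHom (MulAut (FreeGroup X)) α] Multiplicative ℤ))
    (G : Type) [Group G] [Countable G] (hG : C G) :
    Embeds C G ∧ ((∀ x : G, IsOfFinOrder x → x = 1) →
      Embeds (fun H _ => C H ∧ ∀ x : H, IsOfFinOrder x → x = 1) G) := by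
  have key : ∀ D : ∀ (G : Type) [Group G], Prop, Cl D → D G → Embeds D G := by
    intro D hD hG
    refine ⟨?_, ?_⟩
    · obtain ⟨H, iH, x, y, f, h1, h2, h3⟩ := embed_two hD hG
      exact ⟨H, iH, x, y, f, h1, h3, h2⟩
    · rintro hfg ⟨Q, iQ, ι, hQ, hι⟩
      obtain ⟨H, iH, x, y, f, h1, h2, h3, h4⟩ := higman hD hG hfg hQ ι hι
      exact ⟨H, iH, x, y, f, h1, h3, h4, h2⟩
  exact ⟨key C (cl_of hC hF) hG, fun ht => key _ (cl_of hC hF).tf ⟨hG, ht⟩⟩

end Pool.Agent.Results.MP_2a547c_gt.HigmanEmbedding
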